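import Pool.Agent.Helper88.IT.Prm

/-! # Module ArI: the operators of the macro program are arithmetical -/

set_option autoImplicit false

namespace Pool.Agent.Helper88.IT

open Pool.Agent.Helper25.EV Pool.Agent.Helper88.RT Ordinal Encodable

theorem arOp_iniL (P : LPr) (hP : P.Prim) : ArOp (iniL P) := by
  apply ArOp.of
  refine Ar.or (Ar.ex (P := fun X (n : ℕ) (k : ℕ) => P.ini n = Sum.inl k ∧ k ∈ X) ?_)
    (Ar.pred (Primrec.eq.comp hP.ini (Primrec.const _)))
  exact Ar.and (Ar.pred (Primrec.eq.comp (hP.ini.comp Primrec.fst)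
    (Primrec.sumInl.comp Primrec.snd))) (Ar.mem Primrec.snd)

theorem arOp_stepL (P : LPr) (hP : P.Prim) : ArOp (stepL P) := by
  apply ArOp.of
  refine Ar.ex (P := fun X (n : ℕ) (v : List Bool) => v.length = (P.nb n).length ∧
    (∀ j < v.length, v.getD j false = true ↔ (P.nb n).getD j 0 ∈ X) ∧ P.ev n v = true) ?_
  refine Ar.and (Ar.pred (Primrec.eq.comp (Primrec.list_length.comp Primrec.snd)
    (Primrec.list_length.comp (hP.nb.comp Primrec.fst)))) (Ar.and ?_ ?_)
  · refine Ar.all (P := fun X (p : ℕ × List Bool) (j : ℕ) => j < p.2.length →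
      (p.2.getD j false = true ↔ (P.nb p.1).getD j 0 ∈ X)) ?_
    refine Ar.imp (Ar.pred (Primrec.nat_lt.comp Primrec.snd
      (Primrec.list_length.comp (Primrec.snd.comp Primrec.fst)))) (Ar.iff (Ar.prim ?_) (Ar.mem ?_))
    · exact (Primrec.list_getD false).comp (Primrec.snd.comp Primrec.fst) Primrec.snd
    · exact (Primrec.list_getD 0).comp (hP.nb.comp (Primrec.fst.comp Primrec.fst)) Primrec.snd
  · exact Ar.prim (hP.ev.comp Primrec.fst Primrec.snd)

theorem arOp_limL (P : LPr) (hP : P.Prim) : ArOp (limL P) := by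
  apply ArOp.of
  exact Ar.or (Ar.pred (Primrec.eq.comp hP.rs (Primrec.const _)))
    (Ar.and (Ar.pred (Primrec.eq.comp hP.rs (Primrec.const _))) (Ar.mem Primrec.id))

/-- constant propositions -/
theorem ar_const {α : Type} [Primcodable α] (p : Prop) : Ar fun (_ : Set ℕ) (_ : α) => p := by
  by_cases h : p
  · exact Ar.congr (Ar.prim (f := fun _ : α => true) (Primrec.const _)) fun X a => by simp [h]
  · exact Ar.congr (Ar.prim (f := fun _ : α => false) (Primrec.const _)) fun X a => by simp [h]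

theorem arOp_ST {al fl : Set ℕ → Prop} {X R : Set ℕ → Set ℕ} (hal : Ar fun S (_ : ℕ) => al S)
    (hX : ArOp X) (hR : ArOp R) (hfl : Ar fun S (_ : ℕ) => fl S) :
    ArOp fun S => ST (al S) (X S) (R S) (fl S) := by
  unfold ST
  refine arOp_St hal hX hR ?_ ?_
  · apply ArOp.of
    exact Ar.and (Ar.pred (Primrec.eq.comp Primrec.id (Primrec.const 0))) hfl
  · exact Ar.congr (ar_const False) fun S p => by simp

/-- the empty operator -/
theorem arOp_empty : ArOp fun _ => (∅ : Set ℕ) :=
  ArOp.of (Ar.congr (ar_const False) fun S p => by simp)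

theorem arOp_G0 : ArOp G0 := by
  unfold G0
  exact arOp_ST (ar_const False) (arOp_iniL U U_prim) arOp_empty (ar_const False)

theorem ar_flag {α : Type} [Primcodable α] : Ar fun S (_ : α) => flag S := by
  refine Ar.congr (Ar.comp (ArOp.toAr (arOp_col 4)) (f := fun _ : α => 0) (Primrec.const 0)) ?_
  intro X a
  exact Iff.rfl

/-- cells are primitive recursive -/
theorem prim_cell {α : Type} [Primcodable α] {f g h : α → ℕ} (hf : Primrec f) (hg : Primrec g)
    (hh : Primrec h) : Primrec fun a => cell (f a) (g a) (h a) :=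
  Primrec₂.natPair.comp hf (Primrec₂.natPair.comp hg hh)

theorem ar_halt {α : Type} [Primcodable α] (e : ℕ) : Ar fun S (_ : α) => halt e S := by
  refine Ar.ex (P := fun S (_ : α) (j : ℕ) => cell e j 3 ∈ S) ?_
  exact Ar.mem (prim_cell (Primrec.const e) Primrec.snd (Primrec.const 3))

theorem arOp_outS (e : ℕ) : ArOp (outS e) :=
  ArOp.of (Ar.mem (prim_cell (Primrec.const e) Primrec.id (Primrec.const 2)))

theorem ar_isLeast : Ar fun S (i : ℕ) => isLeast S i := by
  refine Ar.and (Ar.mem (Primrec₂.natPair.comp Primrec.id Primrec.id)) ?_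
  refine Ar.all (P := fun S (i : ℕ) (j : ℕ) => Nat.pair j j ∈ S → Nat.pair i j ∈ S) ?_
  exact Ar.imp (Ar.mem (Primrec₂.natPair.comp Primrec.snd Primrec.snd))
    (Ar.mem (Primrec₂.natPair.comp Primrec.fst Primrec.snd))

theorem arOp_decR : ArOp decR := by
  apply ArOp.of
  exact Ar.and (Ar.mem Primrec.id)
    (Ar.neg (Ar.comp ar_isLeast (Primrec.fst.comp Primrec.unpair)))

theorem ar_emptyR {α : Type} [Primcodable α] : Ar fun S (_ : α) => emptyR S := by
  refine Ar.all (P := fun S (_ : α) (j : ℕ) => Nat.pair j j ∉ S) ?_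
  exact Ar.neg (Ar.mem (Primrec₂.natPair.comp Primrec.snd Primrec.snd))

theorem arOp_G1 (e : ℕ) : ArOp (G1 e) := by
  have h1 : ArOp (col 1) := arOp_col 1
  have h2 : ArOp (col 2) := arOp_col 2
  have hh : ∀ (α : Type) [Primcodable α], Ar fun S (_ : α) => halt e (col 1 S) :=
    fun α _ => Ar.subst (ar_halt e) h1
  unfold G1
  refine arOp_ST ?_ ?_ ?_ ?_
  · exact Ar.and ar_flag (Ar.subst ar_emptyR h2)
  · apply ArOp.of
    exact Ar.and (Ar.neg ar_flag) (Ar.and (Ar.neg (hh ℕ))
      (Ar.subst (ArOp.toAr (arOp_stepL U U_prim)) h1))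
  · apply ArOp.of
    exact Ar.or (Ar.and ar_flag (Ar.subst (ArOp.toAr arOp_decR) h2))
      (Ar.and (Ar.neg ar_flag) (Ar.and (hh ℕ) (Ar.subst (ArOp.toAr (arOp_outS e)) h1)))
  · exact Ar.or ar_flag (hh ℕ)

theorem arOp_G2 : ArOp G2 := by
  have h1 : ArOp (col 1) := arOp_col 1
  have h2 : ArOp (col 2) := arOp_col 2
  unfold G2
  refine arOp_ST (ar_const False) ?_ ?_ ar_flag
  · apply ArOp.of
    exact Ar.and (Ar.neg ar_flag) (Ar.subst (ArOp.toAr (arOp_limL U U_prim)) h1)
  · apply ArOp.of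
    exact Ar.and ar_flag (ArOp.toAr h2)

theorem macI_ok (e : ℕ) : (macI e).ok := by
  refine ⟨?_, ?_, ?_⟩
  · intro I hI
    simp only [macI, List.mem_singleton] at hI
    rw [hI]
    exact arOp_G0
  · intro I hI
    simp only [macI, List.mem_singleton] at hI
    rw [hI]
    exact arOp_G1 e
  · intro I hI
    simp only [macI, List.mem_singleton] at hI
    rw [hI]
    exact arOp_G2

end Pool.Agent.Helper88.IT
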