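import Pool.Agent.Helper88.IT.ExA

/-! # Module ExB: one step of the universal local process -/

set_option autoImplicit false

namespace Pool.Agent.Helper88.IT

open Pool.Agent.Helper25.EV Pool.Agent.Helper88.RT Ordinal Encodable

theorem codeT_codeP (p : Prog) :
    codeT (codeP p) = (p.n + 2, (List.range (8 * (p.n + 2))).map (tabE p)) := by
  unfold codeT codeP
  rw [encodek]
  rfl

theorem Kn_cell (p : Prog) (j k : ℕ) : Kn (cell (codeP p) j k) = p.n + 2 + 4 := by
  unfold Kn
  rw [ce_cell, codeT_codeP]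

open Classical in
theorem stepL_iff (P : LPr) (X : Set ℕ) (n : ℕ) :
    n ∈ stepL P X ↔ P.ev n ((P.nb n).map fun c => decide (c ∈ X)) = true := by
  constructor
  · rintro ⟨v, h1, h2, h3⟩
    have : v = (P.nb n).map fun c => decide (c ∈ X) := by
      apply List.ext_getElem
      · rw [h1, List.length_map]
      · intro i hi1 hi2
        have h4 := h2 i hi1
        rw [List.getD_eq_getElem _ _ hi1, List.getD_eq_getElem _ _ (h1 ▸ hi1)] at h4
        rw [List.getElem_map, Bool.eq_iff_iff, h4, decide_eq_true_eq]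
    rw [← this]
    exact h3
  · intro h
    refine ⟨_, List.length_map _, ?_, h⟩
    intro i hi
    rw [List.getD_eq_getElem _ _ hi, List.getElem_map, decide_eq_true_eq,
      List.getD_eq_getElem _ _ (by simpa using hi)]

open Classical in
/-- the values of the neighbours -/
theorem W_nb (X : Set ℕ) (n d k : ℕ) (hd : d < 3) (hk : k < Kn n) :
    W (Kn n) ((U.nb n).map fun c => decide (c ∈ X)) d k =
      decide (cell (ce n) (cj n + d - 1) k ∈ X) := by
  have hK : 0 < Kn n := by omega
  have h1 : d * Kn n + k < 3 * Kn n := by nlinarith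
  have h2 : (d * Kn n + k) / Kn n = d := by
    rw [mul_comm, Nat.mul_add_div hK, Nat.div_eq_of_lt hk, add_zero]
  have h3 : (d * Kn n + k) % Kn n = k := by
    rw [mul_comm, Nat.mul_add_mod, Nat.mod_eq_of_lt hk]
  have hlen : d * Kn n + k < ((U.nb n).map fun c => decide (c ∈ X)).length := by simp [U, h1]
  unfold W
  rw [List.getD_eq_getElem _ _ hlen, List.getElem_map]
  have h4 : (U.nb n)[d * Kn n + k]'(by simpa using hlen) = cell (ce n) (cj n + d - 1) k := by
    simp [U, h2, h3]
  rw [h4]

theorem tabE_eq (p : Prog) (q : Fin (p.n + 2)) (b0 b1 b2 : Bool) :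
    tabE p (8 * q.val + 4 * b0.toNat + 2 * b1.toNat + b2.toNat) =
      ((p.tr q (b0, b1, b2)).1, (p.tr q (b0, b1, b2)).2.1, kindOf (p.tr q (b0, b1, b2)).2.2) := by
  have h0 := q.isLt
  have h1 : (8 * q.val + 4 * b0.toNat + 2 * b1.toNat + b2.toNat) / 8 = q.val := by
    cases b0 <;> cases b1 <;> cases b2 <;> simp only [Bool.toNat_true, Bool.toNat_false] <;> omega
  have h2 : bit (8 * q.val + 4 * b0.toNat + 2 * b1.toNat + b2.toNat) 4 = b0 := by
    unfold bit
    cases b0 <;> cases b1 <;> cases b2 <;> simp only [Bool.toNat_true, Bool.toNat_false] <;>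
      simp <;> omega
  have h3 : bit (8 * q.val + 4 * b0.toNat + 2 * b1.toNat + b2.toNat) 2 = b1 := by
    unfold bit
    cases b0 <;> cases b1 <;> cases b2 <;> simp only [Bool.toNat_true, Bool.toNat_false] <;>
      simp <;> omega
  have h4 : bit (8 * q.val + 4 * b0.toNat + 2 * b1.toNat + b2.toNat) 1 = b2 := by
    unfold bit
    cases b0 <;> cases b1 <;> cases b2 <;> simp only [Bool.toNat_true, Bool.toNat_false] <;>
      simp <;> omega
  have h5 : (8 * q.val + 4 * b0.toNat + 2 * b1.toNat + b2.toNat) / 8 < p.n + 2 := by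
    rw [h1]
    exact h0
  have h6 : (⟨(8 * q.val + 4 * b0.toNat + 2 * b1.toNat + b2.toNat) / 8, h5⟩ : Fin (p.n + 2)) = q :=
    Fin.ext h1
  unfold tabE
  rw [dif_pos h5, h6, h2, h3, h4]

theorem kindOf_le (p : Prog) (o : Option (Fin (p.n + 2))) : 3 ≤ kindOf o := by
  cases o with
  | none => exact le_refl 3
  | some q =>
    show 3 ≤ 4 + q.val
    omega

open Classical in
theorem exact_step (p : Prog) (X : Set ℕ) (s : Snap p) (h : Exact X s) (hs : s.st ≠ none) :
    Exact (stepL U X) (stepSnap p s) := by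
  obtain ⟨q, hq⟩ := Option.ne_none_iff_exists'.1 hs
  intro j k
  rw [stepL_iff]
  set n := cell (codeP p) j k with hn
  set v := (U.nb n).map fun c => decide (c ∈ X) with hv
  have hKn : Kn n = p.n + 2 + 4 := Kn_cell p j k
  have hce : ce n = codeP p := ce_cell _ _ _
  have hcj : cj n = j := cj_cell _ _ _
  have hck : ck n = k := ck_cell _ _ _
  have hT : (codeT (ce n)).2 = (List.range (8 * (p.n + 2))).map (tabE p) := by
    rw [hce, codeT_codeP]
  have hW : ∀ d i, d < 3 → i < p.n + 2 + 4 →
      W (Kn n) v d i = decide (repr s (j + d - 1) i) := by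
    intro d i hd hi
    rw [hv, W_nb X n d i hd (by omega), hce, hcj]
    rw [decide_eq_decide]
    exact h _ _
  have hqd : ∀ d, d < 3 → s.hd = j + d - 1 → qd (Kn n) v d = q.val := by
    intro d hd h1
    unfold qd
    have hlt : q.val < (List.range (Kn n - 4)).length := by
      rw [List.length_range, hKn]
      have := q.isLt
      omega
    rw [List.findIdx_eq hlt]
    have key : ∀ i, i < p.n + 2 → W (Kn n) v d (4 + i) = decide (i = q.val) := by
      intro i hi
      rw [hW d (4 + i) hd (by omega), decide_eq_decide, ← h1]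
      unfold repr
      rw [hq]
      show (_ ∨ _ ∨ _ ∨ (3 ≤ 4 + i ∧ s.hd = s.hd ∧ 4 + i = 4 + q.val)) ↔ _
      constructor
      · rintro (⟨h2, -⟩ | ⟨h2, -⟩ | ⟨h2, -⟩ | ⟨-, -, h2⟩) <;> omega
      · intro h2
        exact Or.inr (Or.inr (Or.inr ⟨by omega, rfl, by omega⟩))
    constructor
    · rw [List.getElem_range, key _ q.isLt]
      simp
    · intro i hi
      rw [List.getElem_range, key _ (hi.trans q.isLt)]
      simp only [decide_eq_false_iff_not]
      omega
  have hqd' : ∀ d, d < 3 → s.hd ≠ j + d - 1 → ¬ qd (Kn n) v d < Kn n - 4 := by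
    intro d hd h1 h2
    unfold qd at h2
    have h3 : List.findIdx (fun q => W (Kn n) v d (4 + q)) (List.range (Kn n - 4)) <
        (List.range (Kn n - 4)).length := by
      rw [List.length_range]
      exact h2
    have h4 := List.findIdx_getElem (w := h3)
    rw [List.getElem_range, hW d _ hd (by omega), decide_eq_true_eq] at h4
    rcases h4 with ⟨h5, -⟩ | ⟨h5, -⟩ | ⟨h5, -⟩ | ⟨-, h5, -⟩
    · omega
    · omega
    · omega
    · exact h1 h5
  have hqd'' : ∀ d, d < 3 → (qd (Kn n) v d < Kn n - 4 ↔ s.hd = j + d - 1) := by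
    intro d hd
    constructor
    · intro h1
      by_contra h2
      exact hqd' d hd h2 h1
    · intro h1
      rw [hqd d hd h1, hKn]
      have := q.isLt
      omega
  set r := p.tr q (s.tin s.hd, s.tsc s.hd, s.tout s.hd) with hr
  have hent : ∀ d, d < 3 → s.hd = j + d - 1 →
      entd (codeT (ce n)).2 (Kn n) v d = (r.1, r.2.1, kindOf r.2.2) := by
    intro d hd h1
    unfold entd
    have hb0 : W (Kn n) v d 0 = s.tin s.hd := by
      rw [hW d 0 hd (by omega), ← h1, Bool.eq_iff_iff, decide_eq_true_eq]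
      simp [repr]
    have hb1 : W (Kn n) v d 1 = s.tsc s.hd := by
      rw [hW d 1 hd (by omega), ← h1, Bool.eq_iff_iff, decide_eq_true_eq]
      simp [repr]
    have hb2 : W (Kn n) v d 2 = s.tout s.hd := by
      rw [hW d 2 hd (by omega), ← h1, Bool.eq_iff_iff, decide_eq_true_eq]
      simp [repr]
    rw [hb0, hb1, hb2, hqd d hd h1, hT]
    have hlt : 8 * q.val + 4 * (s.tin s.hd).toNat + 2 * (s.tsc s.hd).toNat + (s.tout s.hd).toNat <
        ((List.range (8 * (p.n + 2))).map (tabE p)).length := by
      rw [List.length_map, List.length_range]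
      have h0 := q.isLt
      have h1 := Bool.toNat_lt (s.tin s.hd)
      have h2 := Bool.toNat_lt (s.tsc s.hd)
      have h3 := Bool.toNat_lt (s.tout s.hd)
      omega
    rw [List.getD_eq_getElem _ _ hlt, List.getElem_map, List.getElem_range, tabE_eq]
  have hstep : stepSnap p s = ⟨r.2.2, if r.2.1 then s.hd + 1 else s.hd - 1,
      Function.update s.tin s.hd r.1.1, Function.update s.tsc s.hd r.1.2.1,
      Function.update s.tout s.hd r.1.2.2⟩ := by
    unfold stepSnap
    rw [hq]
  rw [hstep]
  show (if ck n < 3 then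
      (if qd (Kn n) v 1 < Kn n - 4 then wr (entd (codeT (ce n)).2 (Kn n) v 1).1 (ck n)
        else W (Kn n) v 1 (ck n))
    else
      decide ((cj n ≠ 0 ∧ qd (Kn n) v 0 < Kn n - 4 ∧
          (entd (codeT (ce n)).2 (Kn n) v 0).2.1 = true ∧
          (entd (codeT (ce n)).2 (Kn n) v 0).2.2 = ck n) ∨
        (qd (Kn n) v 2 < Kn n - 4 ∧ (entd (codeT (ce n)).2 (Kn n) v 2).2.1 = false ∧
          (entd (codeT (ce n)).2 (Kn n) v 2).2.2 = ck n) ∨
        (cj n = 0 ∧ qd (Kn n) v 1 < Kn n - 4 ∧
          (entd (codeT (ce n)).2 (Kn n) v 1).2.1 = false ∧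
          (entd (codeT (ce n)).2 (Kn n) v 1).2.2 = ck n))) = true ↔ _
  rw [hck, hcj]
  have hk3 := kindOf_le p r.2.2
  by_cases hk : k < 3
  · rw [if_pos hk]
    have h12 : k = 0 ∨ k = 1 ∨ k = 2 := by omega
    by_cases hj : s.hd = j
    · have hj1 : s.hd = j + 1 - 1 := by omega
      rw [if_pos ((hqd'' 1 (by omega)).2 hj1), hent 1 (by omega) hj1]
      unfold repr wr
      simp only [hj, Function.update_self]
      rcases h12 with rfl | rfl | rfl
      · simp
      · simp
      · simp
    · have hj1 : ¬ s.hd = j + 1 - 1 := by omega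
      have hj2 : j ≠ s.hd := fun h => hj h.symm
      rw [if_neg (fun h => hj1 ((hqd'' 1 (by omega)).1 h)), hW 1 k (by omega) (by omega)]
      unfold repr
      simp only [Function.update_of_ne hj2, decide_eq_true_eq]
      rcases h12 with rfl | rfl | rfl
      · simp
      · simp
      · simp
  · rw [if_neg hk, decide_eq_true_eq]
    have hR : repr (p := p) ⟨r.2.2, if r.2.1 then s.hd + 1 else s.hd - 1,
      Function.update s.tin s.hd r.1.1, Function.update s.tsc s.hd r.1.2.1,
      Function.update s.tout s.hd r.1.2.2⟩ j k ↔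
      (if r.2.1 then s.hd + 1 else s.hd - 1) = j ∧ k = kindOf r.2.2 := by
      unfold repr
      constructor
      · rintro (⟨h5, -⟩ | ⟨h5, -⟩ | ⟨h5, -⟩ | ⟨-, h5, h6⟩)
        · omega
        · omega
        · omega
        · exact ⟨h5, h6⟩
      · rintro ⟨h5, h6⟩
        exact Or.inr (Or.inr (Or.inr ⟨by omega, h5, h6⟩))
    rw [hR]
    constructor
    · rintro (⟨h1, h2, h3, h4⟩ | ⟨h2, h3, h4⟩ | ⟨h1, h2, h3, h4⟩)
      · have h5 := (hqd'' 0 (by omega)).1 h2
        rw [hent 0 (by omega) h5] at h3 h4
        simp only at h3 h4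
        rw [h3]
        exact ⟨by simp only [if_true]; omega, h4.symm⟩
      · have h5 := (hqd'' 2 (by omega)).1 h2
        rw [hent 2 (by omega) h5] at h3 h4
        simp only at h3 h4
        rw [h3]
        exact ⟨by simp only [Bool.false_eq_true, if_false]; omega, h4.symm⟩
      · have h5 := (hqd'' 1 (by omega)).1 h2
        rw [hent 1 (by omega) h5] at h3 h4
        simp only at h3 h4
        rw [h3]
        exact ⟨by simp only [Bool.false_eq_true, if_false]; omega, h4.symm⟩
    · rintro ⟨h1, h2⟩
      cases hb : r.2.1 with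
      | true =>
        rw [hb] at h1
        simp only [if_true] at h1
        have h5 : s.hd = j + 0 - 1 := by omega
        refine Or.inl ⟨by omega, (hqd'' 0 (by omega)).2 h5, ?_, ?_⟩
        · rw [hent 0 (by omega) h5]
          exact hb
        · rw [hent 0 (by omega) h5]
          exact h2.symm
      | false =>
        rw [hb] at h1
        simp only [Bool.false_eq_true, if_false] at h1
        by_cases h6 : s.hd = 0
        · have h5 : s.hd = j + 1 - 1 := by omega
          refine Or.inr (Or.inr ⟨by omega, (hqd'' 1 (by omega)).2 h5, ?_, ?_⟩)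
          · rw [hent 1 (by omega) h5]
            exact hb
          · rw [hent 1 (by omega) h5]
            exact h2.symm
        · have h5 : s.hd = j + 2 - 1 := by omega
          refine Or.inr (Or.inl ⟨(hqd'' 2 (by omega)).2 h5, ?_, ?_⟩)
          · rw [hent 2 (by omega) h5]
            exact hb
          · rw [hent 2 (by omega) h5]
            exact h2.symm

end Pool.Agent.Helper88.IT
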