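import Pool.Agent.Helper88.IT.Cells

/-! # Module Per: local processes are periodic after a loop -/

set_option autoImplicit false

namespace Pool.Agent.Helper88.IT

open Pool.Agent.Helper25.EV Pool.Agent.Helper88.RT Ordinal Encodable

section aux

variable {X : Ordinal.{0} → Set ℕ}

private theorem lt_add_one' (a : Ordinal.{0}) : a < a + 1 := by
  rw [← Order.succ_eq_add_one]
  exact Order.lt_succ a

/-- the limit superior at a multiple of the length of the loop -/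
theorem supL_loop {ζ δ ξ : Ordinal.{0}} (hζ : Order.IsSuccLimit ζ) (hδ : Order.IsSuccLimit δ)
    (hl : Loop X ζ (ζ + δ)) (h0 : 0 < ξ) (hmod : ξ % δ = 0)
    (ih : ∀ η < ξ, X (ζ + η) = X (ζ + η % δ)) : supL X (ζ + ξ) = supL X ζ := by
  have hδ0 : δ ≠ 0 := hδ.bot_lt.ne'
  have hr : ∀ η : Ordinal.{0}, ζ + η % δ < ζ + δ := fun η =>
    (add_lt_add_iff_left ζ).2 (Ordinal.mod_lt η hδ0)
  have hζξ : ζ < ζ + ξ := by
    conv_lhs => rw [← add_zero ζ]
    exact (add_lt_add_iff_left ζ).2 h0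
  -- the limit superior and silent cells
  have hsup : ∀ (l : Ordinal.{0}) (n : ℕ), n ∈ supL X l ↔ n ∉ Zc X l := by
    intro l n
    constructor
    · rintro h ⟨a, ha, hs⟩
      obtain ⟨γ, h1, h2, h3⟩ := h a ha
      exact hs γ h2 h1 h3
    · intro h a ha
      obtain ⟨α, h1, h2, h3⟩ := fire_of_not_Zc h a ha
      exact ⟨α, h2, h1, h3⟩
  ext n
  rw [hsup ζ]
  constructor
  · intro h hc
    obtain ⟨γ, h1, h2, h3⟩ := h ζ hζξ
    have h4 : γ = ζ + (γ - ζ) := (Ordinal.add_sub_cancel_of_le h2).symm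
    have h5 : γ - ζ < ξ := (Ordinal.sub_lt_of_le h2).2 h1
    rw [h4, ih _ h5] at h3
    exact hl.sil n hc _ le_self_add (hr _) h3
  · intro hc a ha
    have hc' : n ∉ Zc X (ζ + δ) := by
      rw [← hl.same]
      exact hc
    obtain ⟨η, hη1, hη2⟩ : ∃ η < ξ, a ≤ ζ + η :=
      ⟨a - ζ, Ordinal.sub_lt_of_lt_add ha h0, Ordinal.le_add_sub a ζ⟩
    obtain ⟨α, h1, h2, h3⟩ := fire_of_not_Zc hc' (ζ + η % δ) (hr η)
    have h4 : ζ ≤ α := le_trans le_self_add h1
    have h5 : α = ζ + (α - ζ) := (Ordinal.add_sub_cancel_of_le h4).symm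
    have h6 : α - ζ < δ := (Ordinal.sub_lt_of_le h4).2 h2
    have h7 : η % δ ≤ α - ζ := by
      rw [h5] at h1
      exact (add_le_add_iff_left ζ).1 h1
    have h9 : δ * (η / δ) + (α - ζ) < ξ := by
      have e1 : ξ = δ * (ξ / δ) := by
        conv_lhs => rw [← Ordinal.div_add_mod ξ δ, hmod, add_zero]
      have e2 : η / δ < ξ / δ := by
        rw [Ordinal.div_lt hδ0, ← e1]
        exact hη1
      calc δ * (η / δ) + (α - ζ) < δ * (η / δ) + δ := (add_lt_add_iff_left _).2 h6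
        _ = δ * Order.succ (η / δ) := by rw [Order.succ_eq_add_one, mul_add_one]
        _ ≤ δ * (ξ / δ) := mul_le_mul_right (Order.succ_le_of_lt e2) δ
        _ = ξ := e1.symm
    have h10 : ζ + (δ * (η / δ) + (α - ζ)) < ζ + ξ := (add_lt_add_iff_left ζ).2 h9
    refine ⟨ζ + (δ * (η / δ) + (α - ζ)), h10, ?_, ?_⟩
    · refine hη2.trans ((add_le_add_iff_left ζ).2 ?_)
      conv_lhs => rw [← Ordinal.div_add_mod η δ]
      exact (add_le_add_iff_left _).2 h7
    · rw [ih _ h9, Ordinal.mul_add_mod_self, Ordinal.mod_eq_of_lt h6, ← h5]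
      exact h3

/-- the limit superiors at corresponding stages agree -/
theorem supL_shift {ζ δ q ρ : Ordinal.{0}} (hρδ : ρ < δ) (hρ0 : 0 < ρ)
    (ih : ∀ η < δ * q + ρ, X (ζ + η) = X (ζ + η % δ)) :
    supL X (ζ + (δ * q + ρ)) = supL X (ζ + ρ) := by
  have key : ∀ ρ' < ρ, X (ζ + (δ * q + ρ')) = X (ζ + ρ') := by
    intro ρ' h
    rw [ih _ ((add_lt_add_iff_left _).2 h), Ordinal.mul_add_mod_self,
      Ordinal.mod_eq_of_lt (h.trans hρδ)]
  ext n
  constructor
  · intro h a ha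
    have h1 : a - ζ < ρ := Ordinal.sub_lt_of_lt_add ha hρ0
    obtain ⟨γ, h2, h3, h4⟩ := h (ζ + (δ * q + (a - ζ)))
      ((add_lt_add_iff_left ζ).2 ((add_lt_add_iff_left _).2 h1))
    have h5 : ζ + δ * q ≤ γ := by
      refine le_trans ?_ h3
      rw [← add_assoc]
      exact le_self_add
    obtain ⟨ρ', hρ'⟩ : ∃ ρ', γ = ζ + (δ * q + ρ') :=
      ⟨γ - (ζ + δ * q), by rw [← add_assoc, Ordinal.add_sub_cancel_of_le h5]⟩
    rw [hρ'] at h2 h3 h4
    have h6 : ρ' < ρ := (add_lt_add_iff_left _).1 ((add_lt_add_iff_left ζ).1 h2)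
    have h7 : a - ζ ≤ ρ' := (add_le_add_iff_left _).1 ((add_le_add_iff_left ζ).1 h3)
    rw [key ρ' h6] at h4
    exact ⟨ζ + ρ', (add_lt_add_iff_left ζ).2 h6, (Ordinal.le_add_sub a ζ).trans
      ((add_le_add_iff_left ζ).2 h7), h4⟩
  · intro h a ha
    rw [← add_assoc] at ha
    have h1 : a - (ζ + δ * q) < ρ := Ordinal.sub_lt_of_lt_add ha hρ0
    obtain ⟨γ, h2, h3, h4⟩ := h (ζ + (a - (ζ + δ * q))) ((add_lt_add_iff_left ζ).2 h1)
    have h5 : ζ ≤ γ := le_trans le_self_add h3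
    obtain ⟨ρ', hρ'⟩ : ∃ ρ', γ = ζ + ρ' := ⟨γ - ζ, (Ordinal.add_sub_cancel_of_le h5).symm⟩
    rw [hρ'] at h2 h3 h4
    have h6 : ρ' < ρ := (add_lt_add_iff_left ζ).1 h2
    have h7 : a - (ζ + δ * q) ≤ ρ' := (add_le_add_iff_left ζ).1 h3
    rw [← key ρ' h6] at h4
    refine ⟨ζ + (δ * q + ρ'), (add_lt_add_iff_left ζ).2 ((add_lt_add_iff_left _).2 h6), ?_, h4⟩
    rw [← add_assoc]
    exact (Ordinal.le_add_sub a (ζ + δ * q)).trans ((add_le_add_iff_left _).2 h7)

end aux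

theorem loc_periodic (P : LPr) (y : Real2) {ζ σ : Ordinal.{0}} (hl : Loop (loc P y) ζ σ)
    (α : Ordinal.{0}) (hα : ζ ≤ α) : loc P y α = loc P y (ζ + (α - ζ) % (σ - ζ)) := by
  have hζ : Order.IsSuccLimit ζ := hl.lim1
  have hζσ : ζ < σ := hl.lt
  obtain ⟨δ, hδσ⟩ : ∃ δ, δ = σ - ζ := ⟨_, rfl⟩
  have hδ : Order.IsSuccLimit δ := by
    rw [hδσ]
    exact Ordinal.isSuccLimit_sub hl.lim2.isSuccPrelimit hζσ
  have hσ : σ = ζ + δ := by
    rw [hδσ, Ordinal.add_sub_cancel_of_le hζσ.le]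
  have hl' : Loop (loc P y) ζ (ζ + δ) := hσ ▸ hl
  have hδ0 : δ ≠ 0 := hδ.bot_lt.ne'
  have key : ∀ ξ : Ordinal.{0}, loc P y (ζ + ξ) = loc P y (ζ + ξ % δ) := by
    intro ξ
    induction ξ using WellFoundedLT.induction with
    | ind ξ ih =>
      rcases lt_or_ge ξ δ with hlt | hge
      · rw [Ordinal.mod_eq_of_lt hlt]
      have hξ : δ * (ξ / δ) + ξ % δ = ξ := Ordinal.div_add_mod ξ δ
      have hρδ : ξ % δ < δ := Ordinal.mod_lt ξ hδ0
      have hξ0 : 0 < ξ := lt_of_lt_of_le hδ.bot_lt hge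
      rcases Ordinal.zero_or_succ_or_isSuccLimit (ξ % δ) with h0 | hs | hlim
      · -- a multiple of `δ`
        have hq0 : 0 < ξ / δ := by
          rw [pos_iff_ne_zero]
          intro h1
          rw [h1, h0, mul_zero, add_zero] at hξ
          exact hξ0.ne hξ
        have hξl : Order.IsSuccLimit ξ := by
          rw [← hξ, h0, add_zero]
          exact Ordinal.isSuccLimit_mul_left hδ hq0
        rw [h0, add_zero, loc_limit P y _ (Ordinal.isSuccLimit_add ζ hξl), loc_limit P y ζ hζ,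
          supL_loop hζ hδ hl' hξ0 h0 ih]
      · obtain ⟨ρ, hρ⟩ := hs
        rw [Order.succ_eq_add_one] at hρ
        have hρ1 : ρ < δ := by
          refine lt_trans (lt_add_one' ρ) ?_
          rw [hρ]
          exact hρδ
        have hξ' : ξ = (δ * (ξ / δ) + ρ) + 1 := by
          rw [add_assoc, hρ, hξ]
        have hlt : δ * (ξ / δ) + ρ < ξ := by
          conv_rhs => rw [hξ']
          exact lt_add_one' _
        have h1 := ih _ hlt
        rw [Ordinal.mul_add_mod_self, Ordinal.mod_eq_of_lt hρ1] at h1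
        rw [← hρ]
        conv_lhs => rw [hξ']
        rw [← add_assoc ζ _ 1, ← add_assoc ζ ρ 1, loc_succ, loc_succ, h1]
      · have hρ0 : 0 < ξ % δ := hlim.bot_lt
        have hξl : Order.IsSuccLimit ξ := by
          rw [← hξ]
          exact Ordinal.isSuccLimit_add _ hlim
        rw [loc_limit P y _ (Ordinal.isSuccLimit_add ζ hξl),
          loc_limit P y _ (Ordinal.isSuccLimit_add ζ hlim)]
        congr 1
        have h2 := supL_shift (X := loc P y) (ζ := ζ) (q := ξ / δ) hρδ hρ0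
          (by rw [hξ]; exact ih)
        rw [hξ] at h2
        exact h2
  have h1 := key (α - ζ)
  rw [Ordinal.add_sub_cancel_of_le hα] at h1
  rw [← hδσ]
  exact h1

end Pool.Agent.Helper88.IT
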