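import Pool.Agent.Helper88.IT.Cells

/-! # Module Phs: the run of the macro program -/

set_option autoImplicit false

namespace Pool.Agent.Helper88.IT

open Pool.Agent.Helper25.EV Pool.Agent.Helper88.RT Ordinal Encodable

section

variable (al : Prop) (X R : Set ℕ) (fl : Prop)

theorem flag_ST : flag (ST al X R fl) ↔ fl := by
  unfold flag ST
  rw [col4_St]
  simp

theorem col1_ST : col 1 (ST al X R fl) = X := by
  unfold ST
  rw [col1_St]

theorem col2_ST : col 2 (ST al X R fl) = R := by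
  unfold ST
  rw [col2_St]

end

theorem ST_congr {al al' : Prop} {X X' R R' : Set ℕ} {fl fl' : Prop} (h1 : al ↔ al')
    (h2 : ∀ n, n ∈ X ↔ n ∈ X') (h3 : ∀ n, n ∈ R ↔ n ∈ R') (h4 : fl ↔ fl') :
    ST al X R fl = ST al' X' R' fl' := by
  obtain rfl := propext h1
  obtain rfl := propext h4
  obtain rfl : X = X' := Set.ext h2
  obtain rfl : R = R' := Set.ext h3
  rfl

theorem phase1 (e : ℕ) (y : Real2) (β : Ordinal.{0}) (h : ∀ γ < β, ¬ halt e (loc U y γ)) :
    mrun (macI e) y β = ST False (loc U y β) ∅ False := by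
  induction β using Ordinal.limitRecOn with
  | zero =>
    rw [macI_zero, loc_zero]
    rfl
  | add_one β ih =>
    rw [macI_succ, ih (fun γ hγ => h γ (hγ.trans (lt_add_one β))), loc_succ]
    have hn : ¬ halt e (loc U y β) := h β (lt_add_one β)
    unfold G1
    rw [flag_ST, col1_ST, col2_ST]
    apply ST_congr
    · simp
    · intro n
      simp [hn]
    · intro n
      simp [hn]
    · simp [hn]
  | limit β hβ ih =>
    have ih' : ∀ γ < β, mrun (macI e) y γ = ST False (loc U y γ) ∅ False := fun γ hγ =>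
      ih γ hγ fun δ hδ => h δ (hδ.trans hγ)
    rw [macI_limit e y β hβ, loc_limit U y β hβ]
    have hfl : ¬ flag (supL (mrun (macI e) y) β) := by
      intro hf
      obtain ⟨γ, hγ, -, h1⟩ := hf 0 (pos_iff_ne_zero.2 hβ.ne_bot)
      have h2 : flag (mrun (macI e) y γ) := h1
      rw [ih' γ hγ, flag_ST] at h2
      exact h2
    have hc : col 1 (supL (mrun (macI e) y) β) = supL (loc U y) β := by
      ext n
      constructor
      · intro h1 a ha
        obtain ⟨γ, hγ, h2, h3⟩ := h1 a ha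
        refine ⟨γ, hγ, h2, ?_⟩
        have h4 : n ∈ col 1 (mrun (macI e) y γ) := h3
        rw [ih' γ hγ, col1_ST] at h4
        exact h4
      · intro h1 a ha
        obtain ⟨γ, hγ, h2, h3⟩ := h1 a ha
        refine ⟨γ, hγ, h2, ?_⟩
        show n ∈ col 1 (mrun (macI e) y γ)
        rw [ih' γ hγ, col1_ST]
        exact h3
    unfold G2
    rw [hc]
    apply ST_congr
    · simp
    · intro n
      simp [hfl]
    · intro n
      simp [hfl]
    · simp [hfl]

/-- what remains of the coded order after `ξ` steps -/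
def Rx (r : Real2) (f : ℕ → Ordinal.{0}) (ξ : Ordinal.{0}) : Set ℕ :=
  {m | r m = true ∧ ξ ≤ f (Nat.unpair m).1}

theorem phase2 (e : ℕ) (y : Real2) (α₀ : Ordinal.{0}) (h : ∀ γ < α₀, ¬ halt e (loc U y γ))
    (h' : halt e (loc U y α₀)) (r : Real2) (hr : outS e (loc U y α₀) = setOf' r)
    (α : Ordinal.{0}) (f : ℕ → Ordinal.{0})
    (hf : Set.BijOn f {i | r (Nat.pair i i) = true} (Set.Iio α))
    (hf' : ∀ i j, r (Nat.pair i j) = true ↔
      r (Nat.pair i i) = true ∧ r (Nat.pair j j) = true ∧ f i ≤ f j) (ξ : Ordinal.{0}) :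
    mrun (macI e) y (α₀ + 1 + ξ) = ST (∃ ξ', ξ = ξ' + 1 ∧ α ≤ ξ') ∅ (Rx r f ξ) True := by
  have hlt : ∀ j, r (Nat.pair j j) = true → f j < α := fun j hj => hf.mapsTo hj
  have hsurj : ∀ ξ < α, ∃ j, r (Nat.pair j j) = true ∧ f j = ξ := by
    intro ξ hξ
    obtain ⟨j, hj, h1⟩ := hf.surjOn hξ
    exact ⟨j, hj, h1⟩
  have hemp : ∀ ξ, emptyR (Rx r f ξ) ↔ α ≤ ξ := by
    intro ξ
    constructor
    · intro h1
      by_contra h2
      obtain ⟨j, hj, h3⟩ := hsurj ξ (not_le.1 h2)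
      refine h1 j ⟨hj, ?_⟩
      rw [Nat.unpair_pair]
      exact h3.ge
    · rintro h1 j ⟨hj, h2⟩
      rw [Nat.unpair_pair] at h2
      exact absurd (hlt j hj) (not_lt.2 (h1.trans h2))
  have hmem : ∀ i j ξ, Nat.pair i j ∈ Rx r f ξ ↔ r (Nat.pair i j) = true ∧ ξ ≤ f i := by
    intro i j ξ
    unfold Rx
    rw [Set.mem_ofPred_eq, Nat.unpair_pair]
  have hdec : ∀ ξ, decR (Rx r f ξ) = Rx r f (ξ + 1) := by
    intro ξ
    ext m
    obtain ⟨i, j, rfl⟩ : ∃ i j, m = Nat.pair i j :=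
      ⟨(Nat.unpair m).1, (Nat.unpair m).2, (Nat.pair_unpair m).symm⟩
    show (Nat.pair i j ∈ Rx r f ξ ∧ ¬ isLeast (Rx r f ξ) (Nat.unpair (Nat.pair i j)).1) ↔ _
    rw [Nat.unpair_pair, hmem, hmem]
    show ((r (Nat.pair i j) = true ∧ ξ ≤ f i) ∧ ¬ isLeast (Rx r f ξ) i) ↔ _
    constructor
    · rintro ⟨⟨h1, h2⟩, h3⟩
      refine ⟨h1, ?_⟩
      obtain ⟨hi, hj, hij⟩ := (hf' i j).1 h1
      rcases h2.eq_or_lt with h4 | h4
      · exfalso
        apply h3
        refine ⟨(hmem i i ξ).2 ⟨hi, h2⟩, fun j' hj' => ?_⟩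
        rw [hmem] at hj'
        rw [hmem]
        exact ⟨(hf' i j').2 ⟨hi, hj'.1, h4 ▸ hj'.2⟩, h2⟩
      · exact Order.add_one_le_of_lt h4
    · rintro ⟨h1, h2⟩
      obtain ⟨hi, hj, hij⟩ := (hf' i j).1 h1
      have h3 : ξ < f i := lt_of_lt_of_le (lt_add_one ξ) h2
      refine ⟨⟨h1, h3.le⟩, ?_⟩
      rintro ⟨h4, h5⟩
      obtain ⟨j', hj', h6⟩ := hsurj ξ (h3.trans (hlt i hi))
      have h7 := h5 j' ((hmem j' j' ξ).2 ⟨hj', h6.ge⟩)
      rw [hmem, hf'] at h7
      have h8 := h7.1.2.2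
      rw [h6] at h8
      exact absurd h3 (not_lt.2 h8)
  induction ξ using Ordinal.limitRecOn with
  | zero =>
    rw [add_zero, macI_succ, phase1 e y α₀ h]
    unfold G1
    rw [flag_ST, col1_ST, col2_ST, hr]
    apply ST_congr
    · constructor
      · rintro ⟨h1, -⟩
        exact absurd h1 (by simp)
      · rintro ⟨ξ', h1, -⟩
        exact absurd (h1 ▸ lt_add_one ξ') (not_lt.2 zero_le)
    · intro n
      simp [h']
    · intro n
      simp only [false_and, not_false_eq_true, h', true_and, false_or]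
      unfold Rx setOf'
      simp
    · simp [h']
  | add_one ξ ih =>
    rw [← add_assoc, macI_succ, ih]
    unfold G1
    rw [flag_ST, col1_ST, col2_ST, hdec, hemp]
    apply ST_congr
    · constructor
      · rintro ⟨-, h1⟩
        exact ⟨ξ, rfl, h1⟩
      · rintro ⟨ξ', h1, h2⟩
        have h3 : ξ = ξ' := by
          apply le_antisymm
          · have := lt_add_one ξ
            rw [h1] at this
            exact Order.lt_add_one_iff.1 this
          · have := lt_add_one ξ'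
            rw [← h1] at this
            exact Order.lt_add_one_iff.1 this
        exact ⟨trivial, h3 ▸ h2⟩
    · intro n
      simp
    · intro n
      simp
    · simp
  | limit ξ hξ ih =>
    have hl : Order.IsSuccLimit (α₀ + 1 + ξ) := Ordinal.isSuccLimit_add _ hξ
    rw [macI_limit e y _ hl]
    have hdiv : ∀ γ, α₀ + 1 ≤ γ → γ < α₀ + 1 + ξ → ∃ ξ' < ξ, γ = α₀ + 1 + ξ' := by
      intro γ h1 h2
      refine ⟨γ - (α₀ + 1), ?_, (Ordinal.add_sub_cancel_of_le h1).symm⟩
      rw [← Ordinal.add_sub_cancel_of_le h1] at h2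
      exact lt_of_add_lt_add_left h2
    have hfl : flag (supL (mrun (macI e) y) (α₀ + 1 + ξ)) := by
      intro a ha
      obtain ⟨b, hb1, hb2, hb3⟩ : ∃ b, a ≤ b ∧ α₀ + 1 ≤ b ∧ b < α₀ + 1 + ξ := by
        refine ⟨max a (α₀ + 1), le_max_left _ _, le_max_right _ _, max_lt ha ?_⟩
        have : (0 : Ordinal.{0}) < ξ := pos_iff_ne_zero.2 hξ.ne_bot
        calc α₀ + 1 = α₀ + 1 + 0 := (add_zero _).symm
          _ < α₀ + 1 + ξ := by gcongr
      obtain ⟨ξ', h1, h2⟩ := hdiv b hb2 hb3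
      refine ⟨b, hb3, hb1, ?_⟩
      show flag (mrun (macI e) y b)
      rw [h2, ih ξ' h1, flag_ST]
      trivial
    have hc : col 2 (supL (mrun (macI e) y) (α₀ + 1 + ξ)) = Rx r f ξ := by
      ext n
      constructor
      · intro h1
        have h2 : ∀ ξ' < ξ, ∃ ξ'' < ξ, ξ' ≤ ξ'' ∧ n ∈ Rx r f ξ'' := by
          intro ξ' hξ'
          obtain ⟨γ, hγ, h3, h4⟩ := h1 (α₀ + 1 + ξ') (by gcongr)
          obtain ⟨ξ'', h5, h6⟩ := hdiv γ (le_trans (le_add_right le_rfl) h3) hγ
          refine ⟨ξ'', h5, ?_, ?_⟩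
          · rw [h6] at h3
            exact le_of_add_le_add_left h3
          · have h7 : n ∈ col 2 (mrun (macI e) y γ) := h4
            rw [h6, ih ξ'' h5, col2_ST] at h7
            exact h7
        constructor
        · obtain ⟨ξ'', -, -, h3⟩ := h2 0 (pos_iff_ne_zero.2 hξ.ne_bot)
          exact h3.1
        · by_contra h3
          push Not at h3
          obtain ⟨ξ'', h4, h5, h6⟩ := h2 _ (hξ.add_one_lt h3)
          have h7 := h5.trans h6.2
          exact absurd (lt_add_one _) (not_lt.2 h7)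
      · rintro ⟨h1, h2⟩ a ha
        obtain ⟨b, hb1, hb2, hb3⟩ : ∃ b, a ≤ b ∧ α₀ + 1 ≤ b ∧ b < α₀ + 1 + ξ := by
          refine ⟨max a (α₀ + 1), le_max_left _ _, le_max_right _ _, max_lt ha ?_⟩
          have : (0 : Ordinal.{0}) < ξ := pos_iff_ne_zero.2 hξ.ne_bot
          calc α₀ + 1 = α₀ + 1 + 0 := (add_zero _).symm
            _ < α₀ + 1 + ξ := by gcongr
        obtain ⟨ξ', h3, h4⟩ := hdiv b hb2 hb3
        refine ⟨b, hb3, hb1, ?_⟩
        show n ∈ col 2 (mrun (macI e) y b)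
        rw [h4, ih ξ' h3, col2_ST]
        exact ⟨h1, h3.le.trans h2⟩
    unfold G2
    rw [hc]
    apply ST_congr
    · constructor
      · intro h1
        exact absurd h1 (by simp)
      · rintro ⟨ξ', h1, -⟩
        rw [h1] at hξ
        exact absurd hξ (Order.not_isSuccLimit_add_one ξ')
    · intro n
      simp [hfl]
    · intro n
      simp [hfl]
    · simp [hfl]

end Pool.Agent.Helper88.IT
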