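import Pool.Agent.Helper88.IT.ExA
import Pool.Agent.Helper88.IT.ExB
import Pool.Agent.Helper88.IT.Per
import Pool.Agent.Helper88.IT.ArI
import Pool.Agent.Helper88.IT.Phs

/-! # Assembly of chapter IT -/

set_option autoImplicit false

namespace Pool.Agent.Helper88.IT

open Pool.Agent.Helper25.EV Pool.Agent.Helper88.RT Ordinal Encodable

theorem run_zero' (p : Prog) (y : Real2) : run p y 0 = initSnap p y := by
  unfold run
  exact Ordinal.limitRecOn_zero ..

theorem run_succ' (p : Prog) (y : Real2) (α : Ordinal.{0}) :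
    run p y (α + 1) = stepSnap p (run p y α) := by
  unfold run
  exact Ordinal.limitRecOn_add_one ..

theorem run_lim' (p : Prog) (y : Real2) (l : Ordinal.{0}) (hl : Order.IsSuccLimit l) :
    run p y l = limSnap p l fun β _ => run p y β := by
  unfold run
  exact Ordinal.limitRecOn_limit _ _ _ _ hl

/-- **Exactness.** -/
theorem exact_loc (p : Prog) (y : Real2) (α : Ordinal.{0}) :
    (∀ β < α, (run p y β).st ≠ none) → Exact (loc U y α) (run p y α) := by
  induction α using Ordinal.limitRecOn with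
  | zero =>
    intro _
    rw [loc_zero, run_zero']
    exact exact_zero p y
  | add_one α ih =>
    intro h
    have h1 := ih (fun β hβ => h β (hβ.trans (lt_add_one α)))
    rw [loc_succ, run_succ']
    exact exact_step p _ _ h1 (h α (lt_add_one α))
  | limit l hl ih =>
    intro h
    rw [loc_limit _ _ _ hl, run_lim' _ _ _ hl]
    exact exact_lim p y l hl h (fun β hβ => ih β hβ (fun γ hγ => h γ (hγ.trans hβ)))

/-- the halting cell -/
theorem halt_iff (p : Prog) (y : Real2) (α : Ordinal.{0})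
    (h : ∀ β < α, (run p y β).st ≠ none) :
    halt (codeP p) (loc U y α) ↔ (run p y α).st = none := by
  have hx := exact_loc p y α h
  constructor
  · rintro ⟨j, hj⟩
    have h1 := (hx j 3).1 hj
    rcases h1 with h1 | h1 | h1 | h1
    · omega
    · omega
    · omega
    · have h2 := h1.2.2
      cases hst : (run p y α).st with
      | none => rfl
      | some q =>
        rw [hst] at h2
        simp only [kindOf] at h2
        omega
  · intro hst
    refine ⟨(run p y α).hd, (hx _ 3).2 (Or.inr (Or.inr (Or.inr ⟨le_rfl, rfl, ?_⟩)))⟩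
    rw [hst]
    rfl

/-- **No late halting.** -/
theorem early (p : Prog) (y : Real2) {ζ σ : Ordinal.{0}} (hl : Loop (loc U y) ζ σ)
    (α : Ordinal.{0}) (hα : (run p y α).st = none) (hmin : ∀ β < α, (run p y β).st ≠ none) :
    α < ζ := by
  by_contra hcon
  rw [not_lt] at hcon
  have hhalt : halt (codeP p) (loc U y α) := (halt_iff p y α hmin).2 hα
  have hno : ∀ β < α, ¬ halt (codeP p) (loc U y β) := by
    intro β hβ h1
    exact hmin β hβ ((halt_iff p y β (fun γ hγ => hmin γ (hγ.trans hβ))).1 h1)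
  rcases lt_or_ge α σ with h1 | h1
  · obtain ⟨j, hj⟩ := hhalt
    have hz : cell (codeP p) j 3 ∈ Zc (loc U y) ζ := by
      refine ⟨0, hl.lim1.bot_lt, ?_⟩
      intro β _ hβ h2
      exact hno β (hβ.trans_le hcon) ⟨j, h2⟩
    exact hl.sil _ hz α hcon h1 hj
  · have h2 : (α - ζ) % (σ - ζ) < σ - ζ :=
      Ordinal.mod_lt _ (Ordinal.sub_ne_zero_iff_lt.2 hl.lt)
    have h3 : ζ + (α - ζ) % (σ - ζ) < σ := by
      calc ζ + (α - ζ) % (σ - ζ) < ζ + (σ - ζ) := (add_lt_add_iff_left ζ).2 h2
        _ = σ := Ordinal.add_sub_cancel_of_le hl.lt.le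
    have h4 := loc_periodic U y hl α hcon
    rw [h4] at hhalt
    exact hno _ (h3.trans_le h1) hhalt

theorem mem_ST (al : Prop) (X R : Set ℕ) (fl : Prop) : 0 ∈ ST al X R fl ↔ al := by
  rw [ST, zero_mem_St]

/-- **Chapter IT.** -/
theorem ITw' : ∃ P : LPr, P.Prim ∧ ∀ (x : Real2) (ζ Ξ : Ordinal.{0}), Loop (loc P x) ζ Ξ →
    ∀ α, Writable x α → α < ζ := by
  refine ⟨U, U_prim, ?_⟩
  rintro x ζ Ξ hl α ⟨p, r, ⟨β₀, hβ, hr⟩, f, hf, hf'⟩
  -- the first halting stage
  obtain ⟨α₀, hα₀, hmin⟩ : ∃ t, (run p x t).st = none ∧ ∀ s < t, (run p x s).st ≠ none := by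
    obtain ⟨m, hm, hm'⟩ := WellFounded.has_min Ordinal.lt_wf {t | (run p x t).st = none} ⟨β₀, hβ⟩
    exact ⟨m, hm, fun s hs hc => hm' s hc hs⟩
  have hle : α₀ ≤ β₀ := by
    by_contra hcon
    exact hmin β₀ (not_le.1 hcon) hβ
  have hstay : ∀ β, α₀ ≤ β → run p x β = run p x α₀ := by
    intro β
    induction β using Ordinal.limitRecOn with
    | zero =>
      intro hb
      have : α₀ = 0 := le_antisymm hb (by simp)
      rw [this]
    | add_one γ ih =>
      intro hb
      rcases hb.eq_or_lt with e | l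
      · rw [e]
      · have h1 := ih (Order.lt_add_one_iff.mp l)
        rw [run_succ', h1]
        unfold stepSnap
        rw [hα₀]
    | limit l hl ih =>
      intro hb
      rcases hb.eq_or_lt with e | lt
      · rw [e]
      · rw [run_lim' p x l hl]
        have hex : ∃ (β : Ordinal.{0}) (hb : β < l), (run p x β).st = none := ⟨α₀, lt, hα₀⟩
        unfold limSnap
        rw [dif_pos hex]
        have h2 := hex.choose_spec.choose_spec
        have h3 : α₀ ≤ hex.choose := by
          by_contra hc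
          exact hmin _ (not_le.mp hc) h2
        exact ih _ hex.choose_spec.choose h3
  have hr' : (run p x α₀).tout = r := by
    rw [← hstay β₀ hle]
    exact hr
  have hx := exact_loc p x α₀ hmin
  have hhalt : halt (codeP p) (loc U x α₀) := (halt_iff p x α₀ hmin).2 hα₀
  have hno : ∀ β < α₀, ¬ halt (codeP p) (loc U x β) := by
    intro β hβ h1
    exact hmin β hβ ((halt_iff p x β (fun γ hγ => hmin γ (hγ.trans hβ))).1 h1)
  have hout : outS (codeP p) (loc U x α₀) = setOf' r := by
    ext m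
    show cell (codeP p) m 2 ∈ loc U x α₀ ↔ r m = true
    rw [hx m 2, ← hr']
    constructor
    · rintro (h | h | h | h)
      · omega
      · omega
      · exact h.2
      · omega
    · intro h
      exact Or.inr (Or.inr (Or.inl ⟨rfl, h⟩))
  have hph1 := fun β (h : ∀ γ < β, ¬ halt (codeP p) (loc U x γ)) => phase1 (codeP p) x β h
  have hph2 := phase2 (codeP p) x α₀ hno hhalt r hout α f hf hf'
  -- first alarm
  have hal : 0 ∈ mrun (macI (codeP p)) x (α₀ + 1 + (α + 1)) := by
    rw [hph2, mem_ST]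
    exact ⟨α, rfl, le_rfl⟩
  have hno' : ∀ s < α₀ + 1 + (α + 1), 0 ∉ mrun (macI (codeP p)) x s := by
    intro s hs h0
    rcases lt_or_ge s (α₀ + 1) with h1 | h1
    · have h2 : s ≤ α₀ := Order.lt_add_one_iff.1 h1
      rw [hph1 s (fun γ hγ => hno γ (hγ.trans_le h2)), mem_ST] at h0
      exact h0
    · obtain ⟨ξ, hξ⟩ : ∃ ξ, s = α₀ + 1 + ξ := ⟨s - (α₀ + 1), by
        rw [Ordinal.add_sub_cancel_of_le h1]⟩
      rw [hξ, hph2, mem_ST] at h0
      obtain ⟨ξ', h2, h3⟩ := h0
      rw [hξ, h2] at hs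
      have h4 : ξ' + 1 < α + 1 := (add_lt_add_iff_left _).1 hs
      exact absurd (Order.lt_add_one_iff.1 ((lt_add_one ξ').trans h4))
        (fun h5 => absurd (lt_of_le_of_lt (add_le_add_left h3 1) h4) (lt_irrefl _))
  obtain ⟨p', hp'⟩ := MP (macI (codeP p)) (macI_ok (codeP p))
  obtain ⟨γ, hγ, hγ1, hγ2, _⟩ := (hp' x).2 _ hal hno'
  have h5 := early p' x hl γ hγ1 hγ2
  calc α < α + 1 := lt_add_one α
    _ ≤ α₀ + 1 + (α + 1) := le_add_self
    _ ≤ γ := hγ
    _ < ζ := h5

end Pool.Agent.Helper88.IT
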