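import Pool.Agent.Helper25.EV.Proc
import Pool.Agent.Helper25.EV.MPmain
import Pool.Agent.Helper88.RT.StAr
import Pool.Agent.Helper88.RT.A

/-!
# Chapter IT: definitions (universal local process, macro program)
-/

set_option autoImplicit false

namespace Pool.Agent.Helper88.IT

open Pool.Agent.Helper25.EV Pool.Agent.Helper88.RT Ordinal Encodable

/-! ### Codes of programs -/

/-- table entries: written bits, direction, kind of the next state cell -/
abbrev Ent : Type := (Bool × Bool × Bool) × Bool × ℕ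

def ent0 : Ent := ((false, false, false), false, 0)

/-- number of states and table of a code -/
def codeT (e : ℕ) : ℕ × List Ent := (decode e : Option (ℕ × List Ent)).getD (0, [])

/-- the kind of the state cell: `3` for the halt state, `4 + q` for the state `q` -/
def kindOf {m : ℕ} : Option (Fin m) → ℕ
  | none => 3
  | some q => 4 + q.val

def bit (t d : ℕ) : Bool := decide (t / d % 2 = 1)

/-- the table entry with the number `t` -/
def tabE (p : Prog) (t : ℕ) : Ent :=
  if h : t / 8 < p.n + 2 then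
    ((p.tr ⟨t / 8, h⟩ (bit t 4, bit t 2, bit t 1)).1,
      (p.tr ⟨t / 8, h⟩ (bit t 4, bit t 2, bit t 1)).2.1,
      kindOf (p.tr ⟨t / 8, h⟩ (bit t 4, bit t 2, bit t 1)).2.2)
  else ent0

/-- the code of a program -/
def codeP (p : Prog) : ℕ := encode (p.n + 2, (List.range (8 * (p.n + 2))).map (tabE p))

/-! ### Cells -/

/-- the cell of the code `e` at the position `j` of the kind `k` (`0, 1, 2`: tapes, `3`: halted,
`4 + q`: state `q`) -/
def cell (e j k : ℕ) : ℕ := Nat.pair e (Nat.pair j k)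

def ce (n : ℕ) : ℕ := (Nat.unpair n).1

def cj (n : ℕ) : ℕ := (Nat.unpair (Nat.unpair n).2).1

def ck (n : ℕ) : ℕ := (Nat.unpair (Nat.unpair n).2).2

/-- number of kinds -/
def Kn (n : ℕ) : ℕ := (codeT (ce n)).1 + 4

/-- the value of the cell with offset `d` (`0`: left, `1`: own, `2`: right) of the kind `k` -/
def W (K : ℕ) (v : List Bool) (d k : ℕ) : Bool := v.getD (d * K + k) false

/-- the state at the offset `d` (or `K - 4`) -/
def qd (K : ℕ) (v : List Bool) (d : ℕ) : ℕ :=
  (List.range (K - 4)).findIdx fun q => W K v d (4 + q)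

/-- the table entry which applies at the offset `d` -/
def entd (T : List Ent) (K : ℕ) (v : List Bool) (d : ℕ) : Ent :=
  T.getD (8 * qd K v d + 4 * (W K v d 0).toNat + 2 * (W K v d 1).toNat + (W K v d 2).toNat) ent0

def wr (b : Bool × Bool × Bool) (k : ℕ) : Bool :=
  if k = 0 then b.1 else if k = 1 then b.2.1 else b.2.2

/-- the universal local process -/
def U : LPr where
  ini := fun n => if ck n = 0 then Sum.inl (cj n) else Sum.inr (decide (ck n = 4 ∧ cj n = 0))
  nb := fun n => (List.range (3 * Kn n)).map fun t =>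
    cell (ce n) (cj n + t / Kn n - 1) (t % Kn n)
  ev := fun n v =>
    if ck n < 3 then
      (if qd (Kn n) v 1 < Kn n - 4 then wr (entd (codeT (ce n)).2 (Kn n) v 1).1 (ck n)
        else W (Kn n) v 1 (ck n))
    else
      decide ((cj n ≠ 0 ∧ qd (Kn n) v 0 < Kn n - 4 ∧
          (entd (codeT (ce n)).2 (Kn n) v 0).2.1 = true ∧
          (entd (codeT (ce n)).2 (Kn n) v 0).2.2 = ck n) ∨
        (qd (Kn n) v 2 < Kn n - 4 ∧ (entd (codeT (ce n)).2 (Kn n) v 2).2.1 = false ∧
          (entd (codeT (ce n)).2 (Kn n) v 2).2.2 = ck n) ∨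
        (cj n = 0 ∧ qd (Kn n) v 1 < Kn n - 4 ∧
          (entd (codeT (ce n)).2 (Kn n) v 1).2.1 = false ∧
          (entd (codeT (ce n)).2 (Kn n) v 1).2.2 = ck n))
  rs := fun n => if ck n < 3 then none else some (decide (ck n = 5 ∧ cj n = 0))

/-- the bits of a snapshot -/
def repr {p : Prog} (s : Snap p) (j k : ℕ) : Prop :=
  (k = 0 ∧ s.tin j = true) ∨ (k = 1 ∧ s.tsc j = true) ∨ (k = 2 ∧ s.tout j = true) ∨
    (3 ≤ k ∧ s.hd = j ∧ k = kindOf s.st)

/-- `X` shows the snapshot `s` -/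
def Exact {p : Prog} (X : Set ℕ) (s : Snap p) : Prop :=
  ∀ j k, cell (codeP p) j k ∈ X ↔ repr s j k

/-! ### Local processes: steps -/

/-- the start -/
def iniL (P : LPr) (Y : Set ℕ) : Set ℕ :=
  {n | (∃ k, P.ini n = Sum.inl k ∧ k ∈ Y) ∨ P.ini n = Sum.inr true}

/-- one step -/
def stepL (P : LPr) (X : Set ℕ) : Set ℕ :=
  {n | ∃ v : List Bool, v.length = (P.nb n).length ∧
    (∀ j < v.length, v.getD j false = true ↔ (P.nb n).getD j 0 ∈ X) ∧ P.ev n v = true}

/-- a limit step, `X` is the limit superior -/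
def limL (P : LPr) (X : Set ℕ) : Set ℕ := {n | P.rs n = some true ∨ (P.rs n = none ∧ n ∈ X)}

/-- limit superior below `l` -/
def supL (X : Ordinal.{0} → Set ℕ) (l : Ordinal.{0}) : Set ℕ :=
  {n | ∀ β < l, ∃ γ, γ < l ∧ β ≤ γ ∧ n ∈ X γ}

theorem loc_zero (P : LPr) (y : Real2) : loc P y 0 = iniL P (setOf' y) := by
  unfold loc
  rw [Ordinal.limitRecOn_zero]
  rfl

theorem loc_succ (P : LPr) (y : Real2) (α : Ordinal.{0}) :
    loc P y (α + 1) = stepL P (loc P y α) := by
  unfold loc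
  rw [Ordinal.limitRecOn_add_one]
  rfl

theorem loc_limit (P : LPr) (y : Real2) (l : Ordinal.{0}) (hl : Order.IsSuccLimit l) :
    loc P y l = limL P (supL (loc P y) l) := by
  unfold loc
  rw [Ordinal.limitRecOn_limit _ _ _ _ hl]
  ext n
  constructor
  · rintro (h | ⟨h1, h2⟩)
    · exact Or.inl h
    · refine Or.inr ⟨h1, fun β hβ => ?_⟩
      obtain ⟨γ, hγ, h3, h4⟩ := h2 β hβ
      exact ⟨γ, hγ, h3, h4⟩
  · rintro (h | ⟨h1, h2⟩)
    · exact Or.inl h
    · refine Or.inr ⟨h1, fun β hβ => ?_⟩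
      obtain ⟨γ, hγ, h3, h4⟩ := h2 β hβ
      exact ⟨γ, hγ, h3, h4⟩

/-! ### The macro program: simulation of the local process, then counting through -/

/-- is the program with the code `e` halted? -/
def halt (e : ℕ) (X : Set ℕ) : Prop := ∃ j, cell e j 3 ∈ X

/-- the output tape -/
def outS (e : ℕ) (X : Set ℕ) : Set ℕ := {m | cell e m 2 ∈ X}

/-- `i` is the least element of the coded order -/
def isLeast (R : Set ℕ) (i : ℕ) : Prop :=
  Nat.pair i i ∈ R ∧ ∀ j, Nat.pair j j ∈ R → Nat.pair i j ∈ R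

/-- the coded order without its least element -/
def decR (R : Set ℕ) : Set ℕ := {m | m ∈ R ∧ ¬ isLeast R (Nat.unpair m).1}

/-- the field is empty -/
def emptyR (R : Set ℕ) : Prop := ∀ j, Nat.pair j j ∉ R

/-- states: alarm, column 1: local process, column 2: remaining order, column 4: `{0}` in the
counting phase -/
def ST (al : Prop) (X R : Set ℕ) (fl : Prop) : Set ℕ := St al X R (fun _ => ∅) {n | n = 0 ∧ fl}

def flag (S : Set ℕ) : Prop := 0 ∈ col 4 S

def G0 (Y : Set ℕ) : Set ℕ := ST False (iniL U Y) ∅ False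

def G1 (e : ℕ) (S : Set ℕ) : Set ℕ :=
  ST (flag S ∧ emptyR (col 2 S))
    {n | ¬ flag S ∧ ¬ halt e (col 1 S) ∧ n ∈ stepL U (col 1 S)}
    {n | (flag S ∧ n ∈ decR (col 2 S)) ∨ (¬ flag S ∧ halt e (col 1 S) ∧ n ∈ outS e (col 1 S))}
    (flag S ∨ halt e (col 1 S))

def G2 (S : Set ℕ) : Set ℕ :=
  ST False {n | ¬ flag S ∧ n ∈ limL U (col 1 S)} {n | flag S ∧ n ∈ col 2 S} (flag S)

/-- the macro program for the code `e` -/
def macI (e : ℕ) : Macro where
  init := [Instr.ar G0]
  main := [Instr.ar (G1 e)]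
  lim := [Instr.ar G2]

theorem macI_zero (e : ℕ) (y : Real2) : mrun (macI e) y 0 = G0 (setOf' y) := by
  unfold mrun
  rw [Ordinal.limitRecOn_zero]
  rfl

theorem macI_succ (e : ℕ) (y : Real2) (β : Ordinal.{0}) :
    mrun (macI e) y (β + 1) = G1 e (mrun (macI e) y β) := by
  unfold mrun
  rw [Ordinal.limitRecOn_add_one]
  rfl

theorem macI_limit (e : ℕ) (y : Real2) (β : Ordinal.{0}) (hβ : Order.IsSuccLimit β) :
    mrun (macI e) y β = G2 (supL (mrun (macI e) y) β) := by
  unfold mrun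
  rw [Ordinal.limitRecOn_limit _ _ _ _ hβ]
  show G2 _ = G2 _
  congr 1
  ext n
  constructor
  · intro h a ha
    obtain ⟨γ, hγ, h1, h2⟩ := h a ha
    exact ⟨γ, hγ, h1, h2⟩
  · intro h a ha
    obtain ⟨γ, hγ, h1, h2⟩ := h a ha
    exact ⟨γ, hγ, h1, h2⟩

end Pool.Agent.Helper88.IT
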