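import Pool.Agent.Helper88.IT.Cells

/-! # Module ExA: the universal local process shows the initial snapshot and limit snapshots -/

set_option autoImplicit false

namespace Pool.Agent.Helper88.IT

open Pool.Agent.Helper25.EV Pool.Agent.Helper88.RT Ordinal Encodable

theorem ce_cell (e j k : ℕ) : ce (cell e j k) = e := by simp [ce, cell]

theorem cj_cell (e j k : ℕ) : cj (cell e j k) = j := by simp [cj, cell]

theorem ck_cell (e j k : ℕ) : ck (cell e j k) = k := by simp [ck, cell]

theorem exact_zero (p : Prog) (y : Real2) : Exact (iniL U (setOf' y)) (initSnap p y) := by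
  intro j k
  show ((∃ i, U.ini (cell (codeP p) j k) = Sum.inl i ∧ i ∈ setOf' y) ∨
    U.ini (cell (codeP p) j k) = Sum.inr true) ↔ _
  have hini : U.ini (cell (codeP p) j k) =
      if k = 0 then Sum.inl j else Sum.inr (decide (k = 4 ∧ j = 0)) := by
    show (if ck _ = 0 then Sum.inl (cj _) else Sum.inr (decide (ck _ = 4 ∧ cj _ = 0))) = _
    rw [ck_cell, cj_cell]
  rw [hini]
  unfold repr initSnap
  simp only
  by_cases hk : k = 0
  · subst hk
    simp only [if_true, Sum.inl.injEq, reduceCtorEq, or_false]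
    constructor
    · rintro ⟨i, hi, h⟩
      rw [← hi] at h
      exact Or.inl ⟨trivial, h⟩
    · rintro (⟨_, h⟩ | ⟨h, _⟩ | ⟨h, _⟩ | ⟨h, _⟩)
      · exact ⟨j, rfl, h⟩
      · exact absurd h (by simp)
      · exact absurd h (by simp)
      · omega
  · simp only [if_neg hk, reduceCtorEq, false_and, exists_false, false_or, Sum.inr.injEq,
      decide_eq_true_eq]
    have h4 : kindOf (some (0 : Fin (p.n + 2))) = 4 := by
      show 4 + (0 : Fin (p.n + 2)).val = 4
      simp
    rw [h4]
    constructor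
    · rintro ⟨h1, h2⟩
      exact Or.inr (Or.inr (Or.inr ⟨by omega, h2.symm, h1⟩))
    · rintro (⟨h, _⟩ | ⟨_, h⟩ | ⟨_, h⟩ | ⟨_, h1, h2⟩)
      · omega
      · exact absurd h (by simp)
      · exact absurd h (by simp)
      · exact ⟨h2, h1.symm⟩

/-- limit stages, if the machine has not halted before -/
theorem exact_lim (p : Prog) (y : Real2) (l : Ordinal.{0}) (hl : Order.IsSuccLimit l)
    (h : ∀ β < l, (run p y β).st ≠ none) (hx : ∀ β < l, Exact (loc U y β) (run p y β)) :
    Exact (limL U (supL (loc U y) l)) (limSnap p l fun β _ => run p y β) := by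
  have hno : ¬ ∃ (β : Ordinal.{0}) (hb : β < l), (run p y β).st = none := by
    rintro ⟨β, hb, h1⟩
    exact h β hb h1
  unfold limSnap
  rw [dif_neg hno]
  intro j k
  show (U.rs (cell (codeP p) j k) = some true ∨ (U.rs (cell (codeP p) j k) = none ∧
    cell (codeP p) j k ∈ supL (loc U y) l)) ↔ _
  have hrs : U.rs (cell (codeP p) j k) = if k < 3 then none else some (decide (k = 5 ∧ j = 0)) := by
    show (if ck _ < 3 then none else some (decide (ck _ = 5 ∧ cj _ = 0))) = _
    rw [ck_cell, cj_cell]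
  rw [hrs]
  have h5 : kindOf (some (1 : Fin (p.n + 2))) = 5 := by
    show 4 + (1 : Fin (p.n + 2)).val = 5
    simp
  by_cases hk : k < 3
  · simp only [if_pos hk, reduceCtorEq, true_and, false_or]
    show (∀ β < l, ∃ γ, γ < l ∧ β ≤ γ ∧ cell (codeP p) j k ∈ loc U y γ) ↔ _
    unfold repr
    simp only [decide_eq_true_eq]
    have key : ∀ t : (Snap p → ℕ → Bool), (∀ γ < l, (cell (codeP p) j k ∈ loc U y γ ↔
        t (run p y γ) j = true)) →
        ((∀ β < l, ∃ γ, γ < l ∧ β ≤ γ ∧ cell (codeP p) j k ∈ loc U y γ) ↔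
        (∀ β < l, ∃ (γ : Ordinal.{0}) (_ : γ < l), β ≤ γ ∧ t (run p y γ) j = true)) := by
      intro t ht
      constructor
      · intro h1 β hβ
        obtain ⟨γ, h2, h3, h4⟩ := h1 β hβ
        exact ⟨γ, h2, h3, (ht γ h2).1 h4⟩
      · intro h1 β hβ
        obtain ⟨γ, h2, h3, h4⟩ := h1 β hβ
        exact ⟨γ, h2, h3, (ht γ h2).2 h4⟩
    have hk3 : k = 0 ∨ k = 1 ∨ k = 2 := by omega
    rcases hk3 with rfl | rfl | rfl
    · rw [key (fun s => s.tin) (fun γ hγ => by rw [hx γ hγ j 0]; simp [repr])]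
      constructor
      · intro h1
        exact Or.inl ⟨rfl, h1⟩
      · rintro (⟨_, h1⟩ | ⟨h1, _⟩ | ⟨h1, _⟩ | ⟨h1, _⟩)
        · exact h1
        · omega
        · omega
        · omega
    · rw [key (fun s => s.tsc) (fun γ hγ => by rw [hx γ hγ j 1]; simp [repr])]
      constructor
      · intro h1
        exact Or.inr (Or.inl ⟨rfl, h1⟩)
      · rintro (⟨h1, _⟩ | ⟨_, h1⟩ | ⟨h1, _⟩ | ⟨h1, _⟩)
        · omega
        · exact h1
        · omega
        · omega
    · rw [key (fun s => s.tout) (fun γ hγ => by rw [hx γ hγ j 2]; simp [repr])]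
      constructor
      · intro h1
        exact Or.inr (Or.inr (Or.inl ⟨rfl, h1⟩))
      · rintro (⟨h1, _⟩ | ⟨h1, _⟩ | ⟨_, h1⟩ | ⟨h1, _⟩)
        · omega
        · omega
        · exact h1
        · omega
  · simp only [if_neg hk, reduceCtorEq, false_and, or_false, Option.some.injEq,
      decide_eq_true_eq]
    unfold repr
    simp only
    rw [h5]
    constructor
    · rintro ⟨h1, h2⟩
      exact Or.inr (Or.inr (Or.inr ⟨by omega, h2.symm, h1⟩))
    · rintro (⟨h, _⟩ | ⟨h, _⟩ | ⟨h, _⟩ | ⟨_, h1, h2⟩)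
      · omega
      · omega
      · omega
      · exact ⟨h2, h1.symm⟩

end Pool.Agent.Helper88.IT
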