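import Pool.Agent.Helper88.IT.Cells

/-! # Module Prm: the universal local process is primitive recursive -/

set_option autoImplicit false

namespace Pool.Agent.Helper88.IT

open Pool.Agent.Helper25.EV Pool.Agent.Helper88.RT Ordinal Encodable

theorem prim_codeT : Primrec codeT :=
  Primrec.option_getD.comp Primrec.decode (Primrec.const (0, []))

theorem prim_ce : Primrec ce := Primrec.fst.comp Primrec.unpair

theorem prim_cj : Primrec cj :=
  Primrec.fst.comp (Primrec.unpair.comp (Primrec.snd.comp Primrec.unpair))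

theorem prim_ck : Primrec ck :=
  Primrec.snd.comp (Primrec.unpair.comp (Primrec.snd.comp Primrec.unpair))

theorem prim_Kn : Primrec Kn :=
  Primrec.nat_add.comp (Primrec.fst.comp (prim_codeT.comp prim_ce)) (Primrec.const 4)

section

variable {α : Type} [Primcodable α]

theorem prim_W {K d k : α → ℕ} {v : α → List Bool} (hK : Primrec K) (hv : Primrec v)
    (hd : Primrec d) (hk : Primrec k) : Primrec fun a => W (K a) (v a) (d a) (k a) :=
  (Primrec.list_getD false).comp hv (Primrec.nat_add.comp (Primrec.nat_mul.comp hd hK) hk)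

theorem prim_qd {K d : α → ℕ} {v : α → List Bool} (hK : Primrec K) (hv : Primrec v)
    (hd : Primrec d) : Primrec fun a => qd (K a) (v a) (d a) := by
  refine Primrec.list_findIdx (f := fun a => List.range (K a - 4))
    (p := fun a q => W (K a) (v a) (d a) (4 + q))
    (Primrec.list_range.comp (Primrec.nat_sub.comp hK (Primrec.const 4))) ?_
  exact prim_W (hK.comp Primrec.fst) (hv.comp Primrec.fst) (hd.comp Primrec.fst)
    (Primrec.nat_add.comp (Primrec.const 4) Primrec.snd)

theorem prim_toNat : Primrec Bool.toNat := Primrec.dom_finite _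

theorem prim_entd {K d : α → ℕ} {T : α → List Ent} {v : α → List Bool} (hT : Primrec T)
    (hK : Primrec K) (hv : Primrec v) (hd : Primrec d) :
    Primrec fun a => entd (T a) (K a) (v a) (d a) := by
  have hW : ∀ k : ℕ, Primrec fun a => (W (K a) (v a) (d a) k).toNat := fun k =>
    prim_toNat.comp (prim_W hK hv hd (Primrec.const k))
  refine (Primrec.list_getD ent0).comp hT ?_
  exact Primrec.nat_add.comp (Primrec.nat_add.comp (Primrec.nat_add.comp
    (Primrec.nat_mul.comp (Primrec.const 8) (prim_qd hK hv hd))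
    (Primrec.nat_mul.comp (Primrec.const 4) (hW 0)))
    (Primrec.nat_mul.comp (Primrec.const 2) (hW 1))) (hW 2)

theorem prim_wr {b : α → Bool × Bool × Bool} {k : α → ℕ} (hb : Primrec b) (hk : Primrec k) :
    Primrec fun a => wr (b a) (k a) := by
  refine Primrec.ite (Primrec.eq.comp hk (Primrec.const 0)) (Primrec.fst.comp hb)
    (Primrec.ite (Primrec.eq.comp hk (Primrec.const 1))
      (Primrec.fst.comp (Primrec.snd.comp hb)) (Primrec.snd.comp (Primrec.snd.comp hb)))

end

theorem U_prim : U.Prim := by
  refine ⟨?_, ?_, ?_, ?_⟩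
  · refine Primrec.ite (Primrec.eq.comp prim_ck (Primrec.const 0)) (Primrec.sumInl.comp prim_cj)
      (Primrec.sumInr.comp ?_)
    exact PrimrecPred.decide (PrimrecPred.and (Primrec.eq.comp prim_ck (Primrec.const 4))
      (Primrec.eq.comp prim_cj (Primrec.const 0)))
  · refine Primrec.list_map (f := fun n => List.range (3 * Kn n))
      (g := fun n t => cell (ce n) (cj n + t / Kn n - 1) (t % Kn n))
      (Primrec.list_range.comp (Primrec.nat_mul.comp (Primrec.const 3) prim_Kn)) ?_
    have hK : Primrec fun p : ℕ × ℕ => Kn p.1 := prim_Kn.comp Primrec.fst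
    have h1 : Primrec fun p : ℕ × ℕ => cj p.1 + p.2 / Kn p.1 - 1 :=
      Primrec.nat_sub.comp (Primrec.nat_add.comp (prim_cj.comp Primrec.fst)
        (Primrec.nat_div.comp Primrec.snd hK)) (Primrec.const 1)
    have h2 : Primrec fun p : ℕ × ℕ => p.2 % Kn p.1 := Primrec.nat_mod.comp Primrec.snd hK
    exact Primrec₂.natPair.comp (prim_ce.comp Primrec.fst) (Primrec₂.natPair.comp h1 h2)
  · have hK : Primrec fun p : ℕ × List Bool => Kn p.1 := prim_Kn.comp Primrec.fst
    have hk : Primrec fun p : ℕ × List Bool => ck p.1 := prim_ck.comp Primrec.fst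
    have hj : Primrec fun p : ℕ × List Bool => cj p.1 := prim_cj.comp Primrec.fst
    have hT : Primrec fun p : ℕ × List Bool => (codeT (ce p.1)).2 :=
      Primrec.snd.comp (prim_codeT.comp (prim_ce.comp Primrec.fst))
    have hv : Primrec fun p : ℕ × List Bool => p.2 := Primrec.snd
    have hq : ∀ d : ℕ, PrimrecPred fun p : ℕ × List Bool => qd (Kn p.1) p.2 d < Kn p.1 - 4 :=
      fun d => Primrec.nat_lt.comp (prim_qd hK hv (Primrec.const d))
        (Primrec.nat_sub.comp hK (Primrec.const 4))
    have he : ∀ d : ℕ, Primrec fun p : ℕ × List Bool =>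
        entd (codeT (ce p.1)).2 (Kn p.1) p.2 d := fun d => prim_entd hT hK hv (Primrec.const d)
    have hdir : ∀ (d : ℕ) (b : Bool), PrimrecPred fun p : ℕ × List Bool =>
        (entd (codeT (ce p.1)).2 (Kn p.1) p.2 d).2.1 = b := fun d b =>
      Primrec.eq.comp (Primrec.fst.comp (Primrec.snd.comp (he d))) (Primrec.const b)
    have hkd : ∀ d : ℕ, PrimrecPred fun p : ℕ × List Bool =>
        (entd (codeT (ce p.1)).2 (Kn p.1) p.2 d).2.2 = ck p.1 := fun d =>
      Primrec.eq.comp (Primrec.snd.comp (Primrec.snd.comp (he d))) hk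
    have hj0 : PrimrecPred fun p : ℕ × List Bool => cj p.1 = 0 :=
      Primrec.eq.comp hj (Primrec.const 0)
    refine Primrec.ite (Primrec.nat_lt.comp hk (Primrec.const 3)) ?_ ?_
    · exact Primrec.ite (hq 1) (prim_wr (Primrec.fst.comp (he 1)) hk)
        (prim_W hK hv (Primrec.const 1) hk)
    · apply PrimrecPred.decide
      refine PrimrecPred.or (PrimrecPred.and (PrimrecPred.not hj0)
        (PrimrecPred.and (hq 0) (PrimrecPred.and (hdir 0 true) (hkd 0))))
        (PrimrecPred.or (PrimrecPred.and (hq 2) (PrimrecPred.and (hdir 2 false) (hkd 2)))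
        (PrimrecPred.and hj0 (PrimrecPred.and (hq 1) (PrimrecPred.and (hdir 1 false) (hkd 1)))))
  · refine Primrec.ite (Primrec.nat_lt.comp prim_ck (Primrec.const 3)) (Primrec.const none)
      (Primrec.option_some.comp ?_)
    exact PrimrecPred.decide (PrimrecPred.and (Primrec.eq.comp prim_ck (Primrec.const 5))
      (Primrec.eq.comp prim_cj (Primrec.const 0)))

end Pool.Agent.Helper88.IT
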